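import Pool.Agent.helper3.AP.SpecG

set_option autoImplicit false

namespace Pool.Agent.AP

open Finset NumberField Pool.Agent.helper3.FT Pool.Agent.helper47.RA Pool.Agent.T5

theorem GAR_prime {p : ℕ} {D : ℤ} {r z y : ℕ} {x : ℤ} (hp : 5 ≤ p) (hD : IsFund D)
    (h : TK p D r z y x) (q : ℕ) (hq : q.Prime) (hqz : q ∣ z) : ¬ (q : ℤ) ∣ D := by
  intro hqD
  have hqp : Prime (q : ℤ) := Nat.prime_iff_prime_int.1 hq
  have hqz' : (q : ℤ) ∣ (z : ℤ) := Int.natCast_dvd_natCast.2 hqz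
  have hzp : (q : ℤ) ^ 2 ∣ (z : ℤ) ^ p := by
    refine (pow_dvd_pow _ (by omega : 2 ≤ p)).trans (pow_dvd_pow_of_dvd hqz' p)
  have hx2 : x ^ 2 = D * (y : ℤ) ^ 2 + 4 * (r : ℤ) * (z : ℤ) ^ p := by linarith [h.eq]
  have hqx : (q : ℤ) ∣ x := by
    refine hqp.dvd_of_dvd_pow (n := 2) ?_
    rw [hx2]
    refine dvd_add (hqD.mul_right _) (Dvd.dvd.mul_left ?_ _)
    exact (dvd_pow_self _ (by norm_num)).trans hzp
  have hqy : ¬ q ∣ y := by
    intro h1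
    have h2 : q ∣ Nat.gcd y (r * z) := Nat.dvd_gcd h1 (hqz.mul_left r)
    rw [h.co] at h2
    exact hq.one_lt.ne' (Nat.dvd_one.1 h2)
  have hqDy : (q : ℤ) ^ 2 ∣ D * (y : ℤ) ^ 2 := by
    have h1 : D * (y : ℤ) ^ 2 = x ^ 2 - 4 * (r : ℤ) * (z : ℤ) ^ p := by linarith
    rw [h1]
    exact dvd_sub (pow_dvd_pow_of_dvd hqx 2) (Dvd.dvd.mul_left hzp _)
  have hcop : IsCoprime ((q : ℤ) ^ 2) ((y : ℤ) ^ 2) := by
    refine IsCoprime.pow ?_
    rw [Nat.isCoprime_iff_coprime]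
    exact (Nat.Prime.coprime_iff_not_dvd hq).2 hqy
  have hqD2 : (q : ℤ) ^ 2 ∣ D := hcop.dvd_of_dvd_mul_right hqDy
  rcases hD.sq_dvd hqD2 with h1 | ⟨m, hm, hm2, h1⟩
  · exact hqp.not_unit h1
  · have hq2 : q = 2 := by
      rcases h1 with h2 | h2
      · exact_mod_cast h2
      · have := hq.pos
        omega
    subst hq2
    obtain ⟨x1, hx1⟩ := hqx
    obtain ⟨z1, hz1⟩ := hqz
    have hyodd : ¬ 2 ∣ y := hqy
    have h32 : (4 : ℤ) ∣ (z : ℤ) ^ p := by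
      have : ((2 : ℕ) : ℤ) ^ 2 = 4 := by norm_num
      rw [← this]
      exact hzp
    obtain ⟨w, hw⟩ := h32
    have he : x1 ^ 2 - m * (y : ℤ) ^ 2 = 4 * ((r : ℤ) * w) := by
      have h3 := h.eq
      rw [hx1, hm, hw] at h3
      push_cast at h3
      linarith
    obtain ⟨y1, hy1⟩ : ∃ y1 : ℕ, y = 2 * y1 + 1 := ⟨y / 2, by omega⟩
    rw [hy1] at he
    push_cast at he
    generalize (r : ℤ) * w = W at he
    have h5 : x1 ^ 2 = m + 4 * (W + m * (y1 : ℤ) ^ 2 + m * y1) := by linear_combination he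
    generalize W + m * (y1 : ℤ) ^ 2 + m * y1 = V at h5
    rcases Int.even_or_odd' x1 with ⟨u, hu | hu⟩
    · rw [hu] at h5
      have h6 : m = 4 * (u ^ 2 - V) := by linear_combination (-1 : ℤ) * h5
      omega
    · rw [hu] at h5
      have h6 : m = 4 * (u ^ 2 + u - V) + 1 := by linear_combination (-1 : ℤ) * h5
      omega

theorem GAR : GAR_stmt := by
  intro p D r z y x hp hD h
  have h1 := fun q (hq : q.Prime) (hqz : q ∣ z) => GAR_prime hp hD h q hq hqz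
  have hx2 : x ^ 2 = D * (y : ℤ) ^ 2 + 4 * (r : ℤ) * (z : ℤ) ^ p := by linarith [h.eq]
  have hr0 : r ≠ 0 := h.sf.ne_zero
  refine ⟨h1, ?_, ?_, ?_, ?_, Nat.one_le_iff_ne_zero.2 hr0⟩
  · have h2 : (r : ℤ) ∣ x ^ 2 := by
      rw [hx2]
      exact dvd_add (h.rD.mul_right _) ((Dvd.intro_left 4 rfl).mul_right _)
    exact ((Int.squarefree_natCast.2 h.sf).dvd_pow_iff_dvd (by norm_num)).1 h2
  · rw [Int.isCoprime_iff_gcd_eq_one, Int.gcd, Int.natAbs_natCast]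
    refine Nat.Coprime.gcd_eq_one (Nat.coprime_of_dvd fun q hq hqx hqz => ?_)
    have hqx' : (q : ℤ) ∣ x := Int.natCast_dvd.2 hqx
    have hqz' : (q : ℤ) ∣ (z : ℤ) := Int.natCast_dvd_natCast.2 hqz
    have hqp : Prime (q : ℤ) := Nat.prime_iff_prime_int.1 hq
    have h3 : (q : ℤ) ∣ D * (y : ℤ) ^ 2 := by
      have h4 : D * (y : ℤ) ^ 2 = x ^ 2 - 4 * (r : ℤ) * (z : ℤ) ^ p := by linarith
      rw [h4]
      exact dvd_sub (dvd_pow hqx' (by norm_num)) (Dvd.dvd.mul_left (dvd_pow hqz' (by omega)) _)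
    rcases hqp.dvd_or_dvd h3 with h5 | h5
    · exact h1 q hq hqz h5
    · have h6 : (q : ℤ) ∣ (y : ℤ) := hqp.dvd_of_dvd_pow h5
      have h7 : q ∣ y := Int.natCast_dvd_natCast.1 h6
      have h8 : q ∣ Nat.gcd y (r * z) := Nat.dvd_gcd h7 (hqz.mul_left r)
      rw [h.co] at h8
      exact hq.one_lt.ne' (Nat.dvd_one.1 h8)
  · refine Nat.coprime_of_dvd fun q hq hqr hqz => ?_
    exact h1 q hq hqz ((Int.natCast_dvd_natCast.2 hqr).trans h.rD)
  · have h9 : Nat.Coprime z D.natAbs := by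
      refine Nat.coprime_of_dvd fun q hq hqz hqD => ?_
      exact h1 q hq hqz (Int.natCast_dvd.2 hqD)
    rw [Nat.Coprime.gcd_mul_right_cancel r h9]
    exact Nat.gcd_eq_left (Int.natCast_dvd.1 h.rD)

end Pool.Agent.AP
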