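import Pool.Agent.helper3.AP.SpecG

set_option autoImplicit false

namespace Pool.Agent.AP

open Finset NumberField Pool.Agent.helper3.FT Pool.Agent.helper47.RA Pool.Agent.T5

theorem GAS_memDN {M : ℝ} {D : ℤ} (hD : IsFund D) (hneg : D < 0) (h1 : M / 2 < -(D : ℝ))
    (h2 : -(D : ℝ) ≤ M) : D ∈ DN M := by
  classical
  unfold DN
  rw [Finset.mem_filter, Finset.mem_Icc]
  refine ⟨⟨?_, by omega⟩, hD, h1⟩
  have h3 : -D ≤ ⌊M⌋ := Int.le_floor.2 (by push_cast; exact h2)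
  omega

theorem GAS_DN {N : ℝ} {D : ℤ} (h : D ∈ DN N) : IsFund D ∧ D < 0 := by
  classical
  unfold DN at h
  rw [Finset.mem_filter, Finset.mem_Icc] at h
  obtain ⟨⟨h1, h2⟩, h3, h4⟩ := h
  exact ⟨h3, by omega⟩

theorem GAS (hBF : BF_stmt) (hSFA : SFA_stmt) (hGAE : GAE_stmt) : AEP_stmt := by
  classical
  intro p hp hp5 N Y hN hY hYN
  have hN0 : 0 < N := by linarith
  have hfin := hBF p N Y hN0
  have h1 : ∀ D ∈ DN N, (cAp p D Y : ℝ) = (({t : Q4 | Bas p N Y t ∧ dp p t = D}.ncard : ℕ) : ℝ) := by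
    intro D hD
    obtain ⟨hF, hneg⟩ := GAS_DN hD
    have hne : Nonempty (Fld D) := hSFA.2.2 D hF hneg
    rw [cAp, dif_pos hne, hGAE p hp hp5 N Y hN hY hYN D hD hne.some]
  rw [AA, Finset.sum_congr rfl h1, ← Nat.cast_sum]
  congr 1
  rw [ncard_sum_eq (DN N) (fun D => {t : Q4 | Bas p N Y t ∧ dp p t = D})]
  · congr 1
    ext t
    simp only [Set.mem_iUnion, exists_prop]
    constructor
    · rintro ⟨D, hD, ht⟩
      obtain ⟨ht1, ht2⟩ := ht
      refine ⟨ht1, ?_⟩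
      rw [ht2]
      exact (GAS_DN hD).1
    · rintro ⟨ht1, ht2⟩
      refine ⟨dp p t, ?_, ht1, rfl⟩
      refine GAS_memDN ht2 ?_ ht1.N1 ht1.N2
      have h3 : (0 : ℝ) < -(dp p t : ℝ) := lt_trans (by linarith) ht1.N1
      have h4 : (dp p t : ℝ) < 0 := by linarith
      exact_mod_cast h4
  · intro D _
    exact hfin.subset fun t ht => ht.1
  · intro D _ D' _ t ht ht'
    exact ht.2.symm.trans ht'.2

end Pool.Agent.AP
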