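import Pool.Agent.helper3.AP.SpecG

set_option autoImplicit false

namespace Pool.Agent.AP

open Finset NumberField Pool.Agent.helper3.FT Pool.Agent.helper47.RA Pool.Agent.T5

theorem GCI (hGTH : GTH_stmt) (hGAR : GAR_stmt) (hGAI : GAI_stmt) (hGAP : GAP_stmt)
    (hGUN : GUN_stmt) : GCI_stmt := by
  intro p K _ _ Q r z y r' z' y' x x' hp hodd hD h h' ha
  obtain ⟨-, n1, -⟩ := hGAI p K Q r z y x hp h
  obtain ⟨-, n2, -⟩ := hGAI p K Q r' z' y' x' hp h'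
  have hn : r * z = r' * z' := by rw [← n1, ← n2, ha]
  obtain ⟨-, -, -, -, g1, r1⟩ := hGAR p Q.D r z y x hp Q.hD h
  obtain ⟨-, -, -, -, g2, r2⟩ := hGAR p Q.D r' z' y' x' hp Q.hD h'
  have hr : r = r' := by rw [← g1, ← g2, hn]
  subst hr
  have hz : z = z' := Nat.eq_of_mul_eq_mul_left r1 hn
  subst hz
  have e1 := hGAP p K Q r z y x hp hodd h
  have e2 := hGAP p K Q r z y' x' hp hodd h'
  rw [← ha, e1, Ideal.span_singleton_eq_span_singleton] at e2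
  obtain ⟨u, hu⟩ := e2
  have hc : (r : 𝓞 K) ^ ((p - 1) / 2) ≠ 0 := by
    refine pow_ne_zero _ ?_
    exact_mod_cast (by omega : r ≠ 0)
  have hθ : th Q x' y' = u * th Q x y := by
    apply mul_left_cancel₀ hc
    rw [← hu]
    ring
  refine ⟨rfl, rfl, ⟨u, u.isUnit, hθ⟩, fun hD4 => ?_⟩
  obtain ⟨t1, -, t3⟩ := hGTH K Q
  have q1 : x ^ 2 - Q.D * (y : ℤ) ^ 2 = 4 * ((r : ℤ) * (z : ℤ) ^ p) := by rw [h.eq]; ring
  have q2 : x' ^ 2 - Q.D * (y' : ℤ) ^ 2 = 4 * ((r : ℤ) * (z : ℤ) ^ p) := by rw [h'.eq]; ring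
  rcases (hGUN K Q hD).1 hD4 u u.isUnit with hu1 | hu1
  · rw [hu1, one_mul] at hθ
    obtain ⟨a1, a2⟩ := t3 x' y' _ x y _ q2 q1 hθ
    exact ⟨by exact_mod_cast a2.symm, a1.symm⟩
  · exfalso
    have hY : Q.Y (th Q x' y') = -Q.Y (th Q x y) := by
      rw [hθ, hu1]
      have h5 := Q.Y_int_mul (-1) (th Q x y)
      push_cast at h5
      rw [h5]
      ring
    rw [(t1 x' y' _ q2).1, (t1 x y _ q1).1] at hY
    have h6 := h.y1
    have h7 := h'.y1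
    omega

end Pool.Agent.AP
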