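import Pool.Agent.helper3.AP.SpecG

set_option autoImplicit false

namespace Pool.Agent.AP

open Finset NumberField Pool.Agent.helper3.FT Pool.Agent.helper47.RA Pool.Agent.T5

theorem GFB_union {α β : Type} (s : Finset β) (A : β → Set α) (hfin : ∀ i ∈ s, (A i).Finite) :
    (⋃ i ∈ s, A i).Finite ∧ (⋃ i ∈ s, A i).ncard ≤ ∑ i ∈ s, (A i).ncard := by
  classical
  refine ⟨Set.Finite.biUnion s.finite_toSet hfin, ?_⟩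
  induction s using Finset.induction_on with
  | empty => simp
  | insert a s ha ih =>
    rw [Finset.set_biUnion_insert, Finset.sum_insert ha]
    refine (Set.ncard_union_le _ _).trans ?_
    exact Nat.add_le_add_left (ih fun i hi => hfin i (Finset.mem_insert_of_mem hi)) _

theorem GFB_DN {N : ℝ} {D : ℤ} (h : D ∈ DN N) : IsFund D ∧ D < 0 := by
  classical
  unfold DN at h
  rw [Finset.mem_filter, Finset.mem_Icc] at h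
  obtain ⟨⟨h1, h2⟩, h3, h4⟩ := h
  exact ⟨h3, by omega⟩

theorem GFB (hBF : BF_stmt) (hGFT : GFT_stmt) (hGFD : GFD_stmt) : FBP_stmt := by
  classical
  intro p hp hp5 ε hε
  obtain ⟨C, hC, hG⟩ := hGFD p hp hp5 ε hε
  refine ⟨C, hC, ?_⟩
  intro N Y f₀ hN hY hf₀ hfN I hNI
  have hY1 : 1 ≤ Y := by linarith
  set G : ℤ → Set Q4 := fun D₀ => {t : Q4 | 1 ≤ t.2.2.1 ∧ Y / 2 < (t.1 : ℝ) * t.2.1 ∧
    (t.1 : ℝ) * t.2.1 ≤ Y ∧ ∃ f : ℕ, 1 ≤ f ∧ TK p D₀ t.1 t.2.1 (t.2.2.1 * f) t.2.2.2} with hGdef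
  have hGfin : ∀ (M : ℝ), ∀ D₀ ∈ DN M, (G D₀).Finite := fun M D₀ hD =>
    (hG D₀ Y (GFB_DN hD).1 (GFB_DN hD).2 hY1).1
  have hin : ∀ M : ℝ, (⋃ D₀ ∈ DN M, G D₀).Finite ∧
      (⋃ D₀ ∈ DN M, G D₀).ncard ≤ ∑ D₀ ∈ DN M, (G D₀).ncard := fun M =>
    GFB_union (DN M) G (hGfin M)
  have hout := GFB_union (range I) (fun i => ⋃ D₀ ∈ DN (N / f₀ ^ 2 / 2 ^ i), G D₀)
    (fun i _ => (hin _).1)
  have hsub : {t : Q4 | Bas p N Y t ∧ ∃ (D₀ : ℤ) (f : ℕ), IsFund D₀ ∧ dp p t = D₀ * (f : ℤ) ^ 2 ∧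
      f₀ ≤ f ∧ Nat.Coprime f (t.1 * t.2.1)} ⊆
      ⋃ i ∈ range I, ⋃ D₀ ∈ DN (N / f₀ ^ 2 / 2 ^ i), G D₀ := by
    rintro t ⟨ht, D₀, f, hF, hdp, hf, hco⟩
    obtain ⟨hTK, -, hf1, i, hi, hD⟩ := hGFT p N Y f₀ I hN hf₀ hfN hNI t ht D₀ f hF hdp hf hco
    rw [Set.mem_iUnion₂]
    refine ⟨i, hi, ?_⟩
    rw [Set.mem_iUnion₂]
    exact ⟨D₀, hD, ht.y1, ht.Y1, ht.Y2, f, hf1, hTK⟩
  have hYε : Y ^ ε ≤ (N * Y) ^ ε := by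
    refine Real.rpow_le_rpow (by linarith) ?_ hε.le
    exact le_mul_of_one_le_left (by linarith) hN
  have hone : ∀ i ∈ range I, (∑ D₀ ∈ DN (N / f₀ ^ 2 / 2 ^ i), ((G D₀).ncard : ℝ)) ≤
      C * (N * Y) ^ ε * (AA p (N / f₀ ^ 2 / 2 ^ i) Y + PA (N / f₀ ^ 2 / 2 ^ i) Y) := by
    intro i _
    rw [AA, PA, ← Finset.sum_add_distrib, Finset.mul_sum]
    refine Finset.sum_le_sum fun D₀ hD => ?_
    refine ((hG D₀ Y (GFB_DN hD).1 (GFB_DN hD).2 hY1).2).trans ?_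
    have h0 : (0 : ℝ) ≤ (cAp p D₀ Y : ℝ) + cPr D₀ Y := by positivity
    refine mul_le_mul_of_nonneg_right ?_ h0
    exact mul_le_mul_of_nonneg_left hYε (by linarith)
  calc (({t : Q4 | Bas p N Y t ∧ ∃ (D₀ : ℤ) (f : ℕ), IsFund D₀ ∧ dp p t = D₀ * (f : ℤ) ^ 2 ∧
      f₀ ≤ f ∧ Nat.Coprime f (t.1 * t.2.1)}.ncard : ℕ) : ℝ)
      ≤ (((⋃ i ∈ range I, ⋃ D₀ ∈ DN (N / f₀ ^ 2 / 2 ^ i), G D₀).ncard : ℕ) : ℝ) := by
        exact_mod_cast Set.ncard_le_ncard hsub hout.1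
    _ ≤ ((∑ i ∈ range I, (⋃ D₀ ∈ DN (N / f₀ ^ 2 / 2 ^ i), G D₀).ncard : ℕ) : ℝ) := by
        exact_mod_cast hout.2
    _ ≤ ∑ i ∈ range I, ∑ D₀ ∈ DN (N / f₀ ^ 2 / 2 ^ i), ((G D₀).ncard : ℝ) := by
        rw [Nat.cast_sum]
        refine Finset.sum_le_sum fun i _ => ?_
        rw [← Nat.cast_sum]
        exact Nat.cast_le.2 (hin (N / f₀ ^ 2 / 2 ^ i)).2
    _ ≤ ∑ i ∈ range I, C * (N * Y) ^ ε *
          (AA p (N / f₀ ^ 2 / 2 ^ i) Y + PA (N / f₀ ^ 2 / 2 ^ i) Y) := Finset.sum_le_sum hone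
    _ = C * (N * Y) ^ ε * ∑ i ∈ range I,
          (AA p (N / f₀ ^ 2 / 2 ^ i) Y + PA (N / f₀ ^ 2 / 2 ^ i) Y) := by rw [Finset.mul_sum]

end Pool.Agent.AP
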