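import Pool.Agent.helper3.AP.SpecG

set_option autoImplicit false

namespace Pool.Agent.AP

open Finset NumberField Pool.Agent.helper3.FT Pool.Agent.helper47.RA Pool.Agent.T5

theorem GTH_half (D t k x y m : ℤ) (ht : t = 0 ∨ t = 1) (hk : D = t + 4 * k)
    (h : x ^ 2 - D * y ^ 2 = 4 * m) :
    2 * ((x - t * y) / 2) = x - t * y ∧
      ((x - t * y) / 2) ^ 2 + t * ((x - t * y) / 2) * y - k * y ^ 2 = m := by
  have hev : (2 : ℤ) ∣ x - t * y := by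
    have h1 : (2 : ℤ) ∣ x ^ 2 - t * y ^ 2 := ⟨2 * m + 2 * k * y ^ 2, by rw [hk] at h; linarith⟩
    have h2 : Even (x ^ 2 - t * y ^ 2) := (even_iff_two_dvd).2 h1
    rw [← even_iff_two_dvd]
    rcases ht with rfl | rfl
    · simp only [zero_mul, sub_zero] at h2 ⊢
      exact (Int.even_pow.1 h2).1
    · simp only [one_mul] at h2 ⊢
      rw [Int.even_sub] at h2 ⊢
      rw [Int.even_pow' (by norm_num), Int.even_pow' (by norm_num)] at h2
      exact h2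
  have h2 : 2 * ((x - t * y) / 2) = x - t * y := Int.mul_ediv_cancel' hev
  refine ⟨h2, ?_⟩
  set x1 := (x - t * y) / 2
  have hx : x = 2 * x1 + t * y := by linarith
  have ht2 : t ^ 2 = t := by rcases ht with rfl | rfl <;> norm_num
  have h4 : 4 * (x1 ^ 2 + t * x1 * y - k * y ^ 2) = 4 * m := by
    rw [← h, hx, hk]
    linear_combination (-(y ^ 2)) * ht2
  linarith

theorem GTH : GTH_stmt := by
  intro K _ _ Q
  have h1 : ∀ x y m : ℤ, x ^ 2 - Q.D * y ^ 2 = 4 * m → Q.Y (th Q x y) = y ∧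
      th Q x y + Q.cj (th Q x y) = (x : 𝓞 K) ∧ th Q x y * Q.cj (th Q x y) = (m : 𝓞 K) := by
    intro x y m h
    obtain ⟨h2, h3⟩ := GTH_half Q.D Q.t Q.k x y m Q.ht Q.hk h
    refine ⟨Q.Y_spec _ _, ?_, ?_⟩
    · rw [th, Q.cj_form]
      have h4 : (x : 𝓞 K) = ((2 * ((x - Q.t * y) / 2) + Q.t * y : ℤ) : 𝓞 K) := by
        rw [h2]
        congr 1
        ring
      rw [h4]
      push_cast
      ring
    · rw [th, Q.norm_form, h3]
  refine ⟨h1, ?_, ?_⟩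
  · intro θ
    obtain ⟨u, hu⟩ := Q.exists_re θ
    have ht2 : Q.t ^ 2 = Q.t := Q.t_sq
    have hnorm : θ * Q.cj θ = ((u ^ 2 + Q.t * u * Q.Y θ - Q.k * (Q.Y θ) ^ 2 : ℤ) : 𝓞 K) := by
      have h5 := Q.norm_form u (Q.Y θ)
      rw [← hu] at h5
      exact h5
    have heq : (2 * u + Q.t * Q.Y θ) ^ 2 - Q.D * (Q.Y θ) ^ 2 =
        4 * (u ^ 2 + Q.t * u * Q.Y θ - Q.k * (Q.Y θ) ^ 2) := by
      rw [Q.hk]
      linear_combination ((Q.Y θ) ^ 2) * ht2
    refine ⟨2 * u + Q.t * Q.Y θ, u ^ 2 + Q.t * u * Q.Y θ - Q.k * (Q.Y θ) ^ 2, ?_, ?_, hnorm, heq,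
      Q.absNorm_eq θ _ hnorm, ?_⟩
    · rw [th]
      have h6 : (2 * u + Q.t * Q.Y θ - Q.t * Q.Y θ) / 2 = u := by
        rw [add_sub_cancel_right]
        exact Int.mul_ediv_cancel_left u (by norm_num)
      rw [h6]
      exact hu
    · have h7 : θ + Q.cj θ = (u + Q.Y θ * Q.ω) + Q.cj (u + Q.Y θ * Q.ω) := by rw [← hu]
      rw [h7, Q.cj_form]
      push_cast
      ring
    · intro hD
      have h8 : 0 ≤ (2 * u + Q.t * Q.Y θ) ^ 2 := sq_nonneg _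
      have h9 : 0 ≤ (Q.Y θ) ^ 2 := sq_nonneg _
      nlinarith
  · intro x y m x' y' m' h h' he
    obtain ⟨a1, a2, -⟩ := h1 x y m h
    obtain ⟨b1, b2, -⟩ := h1 x' y' m' h'
    refine ⟨?_, ?_⟩
    · apply QF.int_inj (K := K)
      rw [← a2, ← b2, he]
    · rw [← a1, ← b1, he]

end Pool.Agent.AP
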