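import Pool.Agent.helper3.AP.SpecG

set_option autoImplicit false

namespace Pool.Agent.AP

open Finset NumberField Pool.Agent.helper3.FT Pool.Agent.helper47.RA Pool.Agent.T5

theorem GUN_form {K : Type} [Field K] [NumberField K] (Q : QF K) (hD : Q.D < 0) (ε : 𝓞 K)
    (hε : IsUnit ε) : ∃ u : ℤ, ε = u + Q.Y ε * Q.ω ∧
      (2 * u + Q.t * Q.Y ε) ^ 2 - Q.D * (Q.Y ε) ^ 2 = 4 := by
  obtain ⟨u, hu⟩ := Q.exists_re ε
  have ht2 : Q.t ^ 2 = Q.t := Q.t_sq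
  have hnorm : ε * Q.cj ε = ((u ^ 2 + Q.t * u * Q.Y ε - Q.k * (Q.Y ε) ^ 2 : ℤ) : 𝓞 K) := by
    have h5 := Q.norm_form u (Q.Y ε)
    rw [← hu] at h5
    exact h5
  have heq : (2 * u + Q.t * Q.Y ε) ^ 2 - Q.D * (Q.Y ε) ^ 2 =
      4 * (u ^ 2 + Q.t * u * Q.Y ε - Q.k * (Q.Y ε) ^ 2) := by
    rw [Q.hk]
    linear_combination ((Q.Y ε) ^ 2) * ht2
  have habs := Q.absNorm_eq ε _ hnorm
  rw [Ideal.span_singleton_eq_top.2 hε, Ideal.absNorm_top] at habs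
  generalize u ^ 2 + Q.t * u * Q.Y ε - Q.k * (Q.Y ε) ^ 2 = m at heq habs
  have h8 : 0 ≤ (2 * u + Q.t * Q.Y ε) ^ 2 := sq_nonneg _
  have h9 : 0 ≤ (Q.Y ε) ^ 2 := sq_nonneg _
  have hm : 0 ≤ m := by nlinarith
  rw [abs_of_nonneg hm] at habs
  refine ⟨u, hu, ?_⟩
  rw [heq, ← habs]
  norm_num

theorem GUN : GUN_stmt := by
  intro K _ _ Q hD
  have hsub : {ε : 𝓞 K | IsUnit ε} ⊆ (fun q : ℤ × ℤ => th Q q.1 q.2) ''
      ((Icc (-2 : ℤ) 2 ×ˢ Icc (-2 : ℤ) 2 : Finset (ℤ × ℤ)) : Set (ℤ × ℤ)) := by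
    intro ε hε
    obtain ⟨u, hu, he⟩ := GUN_form Q hD ε hε
    have h8 : 0 ≤ (2 * u + Q.t * Q.Y ε) ^ 2 := sq_nonneg _
    have h9 : 0 ≤ (Q.Y ε) ^ 2 := sq_nonneg _
    have hA : (2 * u + Q.t * Q.Y ε) ^ 2 ≤ 4 := by nlinarith
    have hB : (Q.Y ε) ^ 2 ≤ 4 := by nlinarith
    refine ⟨(2 * u + Q.t * Q.Y ε, Q.Y ε), ?_, ?_⟩
    · rw [Finset.mem_coe, Finset.mem_product, Finset.mem_Icc, Finset.mem_Icc]
      refine ⟨⟨?_, ?_⟩, ?_, ?_⟩
      · nlinarith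
      · nlinarith
      · nlinarith
      · nlinarith
    · show th Q (2 * u + Q.t * Q.Y ε) (Q.Y ε) = ε
      rw [th]
      have h6 : (2 * u + Q.t * Q.Y ε - Q.t * Q.Y ε) / 2 = u := by
        rw [add_sub_cancel_right]
        exact Int.mul_ediv_cancel_left u (by norm_num)
      rw [h6]
      exact hu.symm
  have hfin : ((fun q : ℤ × ℤ => th Q q.1 q.2) ''
      ((Icc (-2 : ℤ) 2 ×ˢ Icc (-2 : ℤ) 2 : Finset (ℤ × ℤ)) : Set (ℤ × ℤ))).Finite :=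
    (Finset.finite_toSet _).image _
  refine ⟨?_, hfin.subset hsub, ?_⟩
  · intro hD4 ε hε
    obtain ⟨u, hu, he⟩ := GUN_form Q hD ε hε
    have h8 : 0 ≤ (2 * u + Q.t * Q.Y ε) ^ 2 := sq_nonneg _
    have hv : Q.Y ε = 0 := by
      by_contra hne
      have h9 : 1 ≤ (Q.Y ε) ^ 2 := by
        have : 0 < (Q.Y ε) ^ 2 := by positivity
        omega
      nlinarith
    rw [hv] at he hu
    have hu2 : u ^ 2 = 1 := by linarith
    have hu3 : u = 1 ∨ u = -1 := by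
      have h10 : (u - 1) * (u + 1) = 0 := by linarith
      rcases mul_eq_zero.1 h10 with h | h
      · left; linarith
      · right; linarith
    rcases hu3 with rfl | rfl
    · left
      rw [hu]
      push_cast
      ring
    · right
      rw [hu]
      push_cast
      ring
  · refine (Set.ncard_le_ncard hsub hfin).trans ((Set.ncard_image_le (Finset.finite_toSet _)).trans ?_)
    rw [Set.ncard_coe_finset, Finset.card_product]
    simp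

end Pool.Agent.AP
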