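import Pool.Agent.helper82.AP.SpecF

set_option autoImplicit false

namespace Pool.Agent.AP

open Finset NumberField Pool.Agent.helper3.FT Pool.Agent.helper47.RA Pool.Agent.T5
open scoped nonZeroDivisors

theorem F1_nonneg (p : ℕ) (N Y : ℝ) : 0 ≤ AA p N Y := Finset.sum_nonneg fun _ _ => Nat.cast_nonneg _

theorem F1_N (p : ℕ) (N Y : ℝ) (h : N < 1) : AA p N Y = 0 := by
  unfold AA
  have h1 : DN N = ∅ := by
    unfold DN
    have h2 : ⌊N⌋ ≤ 0 := by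
      have : ⌊N⌋ < 1 := Int.floor_lt.2 (by exact_mod_cast h)
      omega
    rw [Finset.Icc_eq_empty (by omega), Finset.filter_empty]
  rw [h1, Finset.sum_empty]

theorem F1_Y (p : ℕ) (N Y : ℝ) (h : Y < 1) : AA p N Y = 0 := by
  classical
  unfold AA
  refine Finset.sum_eq_zero fun D _ => ?_
  have h1 : cAp p D Y = 0 := by
    unfold cAp
    split_ifs with h2
    · have h3 : IAp p h2.some.K Y = ∅ := by
        rw [Set.eq_empty_iff_forall_notMem]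
        rintro a ⟨ha, _, _, _, _, h4⟩
        have h5 : (Ideal.absNorm a : ℝ) < 1 := lt_of_le_of_lt h4 h
        have h6 : Ideal.absNorm a < 1 := by exact_mod_cast h5
        exact ha (Ideal.absNorm_eq_zero_iff.1 (by omega))
      rw [h3, Set.ncard_empty]
    · rfl
  rw [h1, Nat.cast_zero]

theorem F1_pow (x : ℝ) (m : ℕ) : ∃ n : ℕ, m ≤ n ∧ x < 2 ^ n := by
  obtain ⟨n, hn⟩ := pow_unbounded_of_one_lt x (one_lt_two : (1 : ℝ) < 2)
  refine ⟨max m n, le_max_left _ _, hn.trans_le ?_⟩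
  exact pow_le_pow_right₀ one_le_two (le_max_right _ _)

theorem F1 (hFC2 : FC2_stmt) (hFC3 : FC3_stmt) : F1_stmt := by
  intro p β hp hp5 hβ1 hβ2 hS hU h hh δ hδ ε hε
  have hp0 : (0 : ℝ) < p := by exact_mod_cast hp.pos
  obtain ⟨N₀, hN₀, H⟩ := hFC3 (1 / (p : ℝ)) β (by positivity) hβ1 hβ2 (AA p) (F1_nonneg p) (F1_N p)
    (F1_Y p) hS hU δ hδ ε hε
  refine ⟨N₀, fun N Y hN hY1 hY2 => ?_⟩
  have hN1 : 1 ≤ N := hN₀.trans hN
  have hY0 : 0 < Y := lt_of_lt_of_le (Real.rpow_pos_of_pos (by linarith) _) hY1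
  obtain ⟨I', J₀, h4, H3⟩ := H N Y hN hY1 hY2
  obtain ⟨I, hI1, hI2⟩ := F1_pow N I'
  obtain ⟨J, hJ1, hJ2⟩ := F1_pow Y J₀
  obtain ⟨e1, e2⟩ := H3 I J hJ1
  obtain ⟨e3, e4⟩ := hFC2 p h hh N Y I I' J hN1 hY0 hI2 hJ2 hI1 h4
  rw [abs_le]
  constructor
  · linarith
  · linarith

end Pool.Agent.AP
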