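import Pool.Agent.helper82.AP.SpecF
import Pool.Agent.helper56.T5.SC3

set_option autoImplicit false

namespace Pool.Agent.AP

open Finset NumberField Pool.Agent.helper3.FT Pool.Agent.helper47.RA Pool.Agent.T5
open scoped nonZeroDivisors

/-- the good indices -/
theorem FC3_in {α β δ : ℝ} (hα : 0 < α) (hβ : β ≤ 1 / 2) (hδ : 0 < δ) (hδ1 : 2 * δ ≤ β - α)
    {N Y : ℝ} (hN : 1 ≤ N) (hY : N ^ (α + δ) ≤ Y)
    (hY' : Y ≤ N ^ (β - δ)) {i j : ℕ} (hi : (2 : ℝ) ^ i ≤ N ^ (δ / 2)) (hj : (2 : ℝ) ^ j ≤ N ^ (δ / 2)) :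
    N ^ (1 / 2 : ℝ) ≤ N / 2 ^ i ∧ (N / 2 ^ i) ^ (α + δ / 2) ≤ Y / 2 ^ j ∧
      Y / 2 ^ j ≤ (N / 2 ^ i) ^ (β - δ / 2) := by
  have hN0 : 0 < N := by linarith
  have h2i : (1 : ℝ) ≤ 2 ^ i := one_le_pow₀ (by norm_num)
  have h2j : (1 : ℝ) ≤ 2 ^ j := one_le_pow₀ (by norm_num)
  have hYp : 0 ≤ Y := (Real.rpow_nonneg hN0.le _).trans hY
  have h1 : N ^ (1 - δ / 2) ≤ N / 2 ^ i := by
    rw [Real.rpow_sub hN0, Real.rpow_one]
    exact div_le_div_of_nonneg_left hN0.le (by positivity) hi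
  refine ⟨(Real.rpow_le_rpow_of_exponent_le hN (by linarith)).trans h1, ?_, ?_⟩
  · calc (N / 2 ^ i) ^ (α + δ / 2) ≤ N ^ (α + δ / 2) :=
          Real.rpow_le_rpow (by positivity) (div_le_self hN0.le h2i) (by linarith)
      _ = N ^ (α + δ - δ / 2) := by
          congr 1
          ring
      _ = N ^ (α + δ) / N ^ (δ / 2) := Real.rpow_sub hN0 _ _
      _ ≤ Y / 2 ^ j := div_le_div₀ hYp hY (by positivity) hj
  · calc Y / 2 ^ j ≤ Y := div_le_self hYp h2j
      _ ≤ N ^ (β - δ) := hY'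
      _ ≤ N ^ ((1 - δ / 2) * (β - δ / 2)) := Real.rpow_le_rpow_of_exponent_le hN (by nlinarith)
      _ = (N ^ (1 - δ / 2)) ^ (β - δ / 2) := Real.rpow_mul hN0.le _ _
      _ ≤ (N / 2 ^ i) ^ (β - δ / 2) := Real.rpow_le_rpow (by positivity) h1 (by linarith)

/-- the bad indices -/
theorem FC3_out {δ : ℝ} (hδ : 0 < δ) {N : ℝ} (hN : 1 ≤ N) {i j : ℕ}
    (h : ¬ ((2 : ℝ) ^ i ≤ N ^ (δ / 2) ∧ (2 : ℝ) ^ j ≤ N ^ (δ / 2))) :
    (1 / √2) ^ i * (1 / 2 : ℝ) ^ j ≤
      N ^ (-(δ / 8)) * (((2 : ℝ) ^ (-(1 / 4 : ℝ))) ^ i * ((2 : ℝ) ^ (-(1 / 2 : ℝ))) ^ j) := by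
  have hN0 : 0 < N := by linarith
  set sa : ℝ := (2 : ℝ) ^ (-(1 / 4 : ℝ)) with hsa
  set sb : ℝ := (2 : ℝ) ^ (-(1 / 2 : ℝ)) with hsb
  have hsa0 : 0 < sa := by positivity
  have hsb0 : 0 < sb := by positivity
  have hsa1 : sa ≤ 1 := Real.rpow_le_one_of_one_le_of_nonpos (by norm_num) (by norm_num)
  have hsb1 : sb ≤ 1 := Real.rpow_le_one_of_one_le_of_nonpos (by norm_num) (by norm_num)
  rw [← SC3_a, ← SC3_b, ← hsa, ← hsb, mul_pow, mul_pow]
  have h1 : sa ^ i ≤ 1 := pow_le_one₀ hsa0.le hsa1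
  have h2 : sb ^ j ≤ 1 := pow_le_one₀ hsb0.le hsb1
  have h3 : 0 < sa ^ i := by positivity
  have h4 : 0 < sb ^ j := by positivity
  have h5 : sa ^ i * sb ^ j ≤ N ^ (-(δ / 8)) := by
    rw [not_and_or, not_le, not_le] at h
    rcases h with h | h
    · have h6 := SC3_small hN0 (c := 1 / 4) (by norm_num) h
      have h7 : N ^ (-(δ / 2 * (1 / 4))) ≤ N ^ (-(δ / 8)) :=
        Real.rpow_le_rpow_of_exponent_le hN (by linarith)
      calc sa ^ i * sb ^ j ≤ sa ^ i * 1 := mul_le_mul_of_nonneg_left h2 h3.le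
        _ = sa ^ i := mul_one _
        _ ≤ _ := h6.trans h7
    · have h6 := SC3_small hN0 (c := 1 / 2) (by norm_num) h
      have h7 : N ^ (-(δ / 2 * (1 / 2))) ≤ N ^ (-(δ / 8)) :=
        Real.rpow_le_rpow_of_exponent_le hN (by linarith)
      calc sa ^ i * sb ^ j ≤ 1 * sb ^ j := mul_le_mul_of_nonneg_right h1 h4.le
        _ = sb ^ j := one_mul _
        _ ≤ _ := h6.trans h7
  calc sa ^ i * sa ^ i * (sb ^ j * sb ^ j) = (sa ^ i * sb ^ j) * (sa ^ i * sb ^ j) := by ring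
    _ ≤ N ^ (-(δ / 8)) * (sa ^ i * sb ^ j) := mul_le_mul_of_nonneg_right h5 (by positivity)

theorem FC3 : FC3_stmt := by
  intro α β hα hαβ hβ A hA0 hAN hAY hH hU δ hδ ε hε
  -- the case of large `δ` is empty
  by_cases hδ1 : β - α < 2 * δ
  · refine ⟨2, by norm_num, fun N Y hN hY hY' => ?_⟩
    exfalso
    have h1 : N ^ (β - δ) < N ^ (α + δ) :=
      Real.rpow_lt_rpow_of_exponent_lt (by linarith) (by linarith)
    linarith
  rw [not_lt] at hδ1
  have hs2 : 1 < √2 := by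
    rw [Real.lt_sqrt (by norm_num)]
    norm_num
  set a : ℝ := 1 / √2 with ha
  have ha0 : 0 < a := by positivity
  have ha1 : a < 1 := by
    rw [ha, div_lt_one (by positivity)]
    exact hs2
  set sa : ℝ := (2 : ℝ) ^ (-(1 / 4 : ℝ)) with hsa
  set sb : ℝ := (2 : ℝ) ^ (-(1 / 2 : ℝ)) with hsb
  have hsa0 : 0 < sa := by positivity
  have hsb0 : 0 < sb := by positivity
  have hsa1 : sa < 1 := Real.rpow_lt_one_of_one_lt_of_neg (by norm_num) (by norm_num)
  have hsb1 : sb < 1 := Real.rpow_lt_one_of_one_lt_of_neg (by norm_num) (by norm_num)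
  have hπ := Real.pi_pos
  obtain ⟨c, hc, hU1⟩ := hU δ hδ
  set sc : ℝ := (2 : ℝ) ^ (-(c / 2)) with hsc
  have hsc0 : 0 < sc := by positivity
  have hsc1 : sc < 1 := Real.rpow_lt_one_of_one_lt_of_neg (by norm_num) (by linarith)
  set U₀ : ℝ := (1 - a)⁻¹ * (1 - 1 / 2)⁻¹ with hU₀
  set V₀ : ℝ := (1 - sa)⁻¹ * (1 - sb)⁻¹ with hV₀
  set V₁ : ℝ := (1 - sc)⁻¹ * (1 - 1 / 2)⁻¹ with hV₁
  have h1a : 0 < 1 - a := by linarith
  have hhalf : (0 : ℝ) < (1 - 1 / 2)⁻¹ := by norm_num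
  have hU0 : 0 < U₀ := by
    rw [hU₀]
    positivity
  have hV0 : 0 < V₀ := by
    have h1 : 0 < 1 - sa := by linarith
    have h2 : 0 < 1 - sb := by linarith
    positivity
  have hV1 : 0 < V₁ := by
    have h1 : 0 < 1 - sc := by linarith
    rw [hV₁]
    positivity
  have hcU : c0 * U₀ = 36 / Real.pi ^ 3 := by
    rw [hU₀]
    unfold c0
    rw [← ha]
    have h1 : (1 - (1 : ℝ) / 2)⁻¹ = 2 := by norm_num
    rw [h1]
    field_simp
    ring
  have hc0 : 0 < c0 := by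
    unfold c0
    rw [← ha]
    positivity
  have hsumU : ∀ I J : ℕ, ∑ i ∈ range I, ∑ j ∈ range J, a ^ i * (1 / 2 : ℝ) ^ j ≤ U₀ := by
    intro I J
    rw [← Finset.sum_mul_sum]
    exact mul_le_mul (SC3_geo ha0.le ha1 I) (SC3_geo (by norm_num) (by norm_num) J)
      (Finset.sum_nonneg fun _ _ => by positivity) (by positivity)
  have hsumV : ∀ I J : ℕ, ∑ i ∈ range I, ∑ j ∈ range J, sa ^ i * sb ^ j ≤ V₀ := by
    intro I J
    rw [← Finset.sum_mul_sum]
    exact mul_le_mul (SC3_geo hsa0.le hsa1 I) (SC3_geo hsb0.le hsb1 J)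
      (Finset.sum_nonneg fun _ _ => by positivity) (by
        have h1 : 0 < 1 - sa := by linarith
        positivity)
  have hsumW : ∀ I J : ℕ, ∑ i ∈ range I, ∑ j ∈ range J, sc ^ i * (1 / 2 : ℝ) ^ j ≤ V₁ := by
    intro I J
    rw [← Finset.sum_mul_sum]
    exact mul_le_mul (SC3_geo hsc0.le hsc1 I) (SC3_geo (by norm_num) (by norm_num) J)
      (Finset.sum_nonneg fun _ _ => by positivity) (by
        have h1 : 0 < 1 - sc := by linarith
        positivity)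
  -- a partial sum close to the limit
  have hlim : Filter.Tendsto (fun n : ℕ => (∑ i ∈ range n, a ^ i) * ∑ j ∈ range n, (1 / 2 : ℝ) ^ j) Filter.atTop
      (nhds U₀) :=
    ((hasSum_geometric_of_lt_one ha0.le ha1).tendsto_sum_nat).mul
      ((hasSum_geometric_of_lt_one (by norm_num) (by norm_num)).tendsto_sum_nat)
  obtain ⟨n₀, hn₀⟩ := (hlim.eventually (lt_mem_nhds (show U₀ - ε / (2 * c0) < U₀ by
    have : 0 < ε / (2 * c0) := by positivity
    linarith))).exists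
  rw [Finset.sum_mul_sum] at hn₀
  -- thresholds
  set ε₁ : ℝ := ε / (2 * U₀) with hε₁
  have hε₁0 : 0 < ε₁ := by positivity
  have hεU : ε₁ * U₀ = ε / 2 := by
    rw [hε₁]
    field_simp
  obtain ⟨N₁, hN₁⟩ := hH (δ / 2) (by positivity) ε₁ hε₁0
  set e : ℝ := min (δ / 8) (c / 2) / 2 with he
  have he0 : 0 < e := by
    have : 0 < min (δ / 8) (c / 2) := lt_min (by positivity) (by positivity)
    positivity
  have he1 : 2 * e ≤ δ / 8 := by
    have := min_le_left (δ / 8) (c / 2)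
    linarith
  have he2 : 2 * e ≤ c / 2 := by
    have := min_le_right (δ / 8) (c / 2)
    linarith
  obtain ⟨C, hC, hU'⟩ := hU1 e he0
  have ev1 : ∀ᶠ N : ℝ in Filter.atTop, N₁ ≤ N ^ (1 / 2 : ℝ) :=
    (tendsto_rpow_atTop (by norm_num)).eventually (Filter.eventually_ge_atTop N₁)
  have ev2 : ∀ᶠ N : ℝ in Filter.atTop, (2 : ℝ) ^ n₀ ≤ N ^ (δ / 2) :=
    (tendsto_rpow_atTop (by positivity)).eventually (Filter.eventually_ge_atTop _)
  have ev4 : ∀ᶠ N : ℝ in Filter.atTop, 4 * (2 : ℝ) ^ n₀ ≤ N ^ (2 * δ) :=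
    (tendsto_rpow_atTop (by positivity)).eventually (Filter.eventually_ge_atTop _)
  have ev5 : ∀ᶠ N : ℝ in Filter.atTop, C * N ^ (-e) * (V₀ + V₁) < ε / 2 := by
    have h1 : Filter.Tendsto (fun N : ℝ => C * N ^ (-e) * (V₀ + V₁)) Filter.atTop
        (nhds (C * 0 * (V₀ + V₁))) :=
      ((tendsto_rpow_neg_atTop he0).const_mul C).mul_const (V₀ + V₁)
    rw [mul_zero, zero_mul] at h1
    exact h1.eventually (gt_mem_nhds (by positivity))
  obtain ⟨N₂, hN₂⟩ := Filter.eventually_atTop.1 (ev1.and (ev2.and (ev4.and ev5)))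
  refine ⟨max N₂ 1, le_max_right _ _, fun N Y hN hY hY' => ?_⟩
  obtain ⟨e1, e2, e4, e5⟩ := hN₂ N ((le_max_left _ _).trans hN)
  have hN1 : 1 ≤ N := (le_max_right _ _).trans hN
  have hN0 : 0 < N := by linarith
  have hY0 : 0 ≤ Y := (Real.rpow_nonneg hN0.le _).trans hY
  set T : ℝ := Y * √N with hT
  have hT0 : 0 ≤ T := by positivity
  have huT : ∀ i j : ℕ, Y / 2 ^ j * √(N / 2 ^ i) = a ^ i * (1 / 2 : ℝ) ^ j * T := by
    intro i j
    have h1 : (1 / 2 : ℝ) ^ j = 1 / 2 ^ j := one_div_pow 2 j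
    rw [SC3_sqrt hN0.le, hT, ← ha, h1]
    ring
  have hwT : ∀ j : ℕ, Y / 2 ^ j * √N = (1 / 2 : ℝ) ^ j * T := by
    intro j
    have h1 : (1 / 2 : ℝ) ^ j = 1 / 2 ^ j := one_div_pow 2 j
    rw [hT, h1]
    ring
  -- the good indices
  have hgood : ∀ i j : ℕ, (2 : ℝ) ^ i ≤ N ^ (δ / 2) → (2 : ℝ) ^ j ≤ N ^ (δ / 2) →
      |A (N / 2 ^ i) (Y / 2 ^ j) - c0 * (a ^ i * (1 / 2 : ℝ) ^ j * T)| ≤ ε₁ * (a ^ i * (1 / 2 : ℝ) ^ j * T) := by
    intro i j hi hj
    obtain ⟨f1, f2, f3⟩ := FC3_in hα hβ hδ hδ1 hN1 hY hY' hi hj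
    have h := hN₁ (N / 2 ^ i) (Y / 2 ^ j) (e1.trans f1) f2 f3
    rw [huT i j] at h
    exact h
  refine ⟨n₀, n₀, ?_, fun I J hJ => ⟨?_, ?_⟩⟩
  · -- `4 Y² 2^n₀ ≤ N`
    have h1 : Y ^ 2 ≤ N ^ (1 - 2 * δ) := by
      calc Y ^ 2 ≤ (N ^ (β - δ)) ^ 2 := pow_le_pow_left₀ hY0 hY' 2
        _ = N ^ (2 * β - 2 * δ) := by
          rw [← Real.rpow_natCast, ← Real.rpow_mul hN0.le]
          congr 1
          push_cast
          ring
        _ ≤ N ^ (1 - 2 * δ) := Real.rpow_le_rpow_of_exponent_le hN1 (by linarith)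
    calc 4 * Y ^ 2 * 2 ^ n₀ = Y ^ 2 * (4 * 2 ^ n₀) := by ring
      _ ≤ N ^ (1 - 2 * δ) * N ^ (2 * δ) := mul_le_mul h1 e4 (by positivity) (by positivity)
      _ = N := by
        rw [← Real.rpow_add hN0]
        have : 1 - 2 * δ + 2 * δ = 1 := by ring
        rw [this, Real.rpow_one]
  · -- the upper bound
    have hall : ∀ i j : ℕ, A (N / 2 ^ i) (Y / 2 ^ j) ≤
        (c0 + ε₁) * T * (a ^ i * (1 / 2 : ℝ) ^ j) + (C * N ^ (-e) * T * (sa ^ i * sb ^ j) +
          C * N ^ (-e) * T * (sc ^ i * (1 / 2 : ℝ) ^ j)) := by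
      intro i j
      have hu0 : 0 ≤ a ^ i * (1 / 2 : ℝ) ^ j := by positivity
      have hv0 : 0 ≤ sa ^ i * sb ^ j := by positivity
      have hw0 : 0 ≤ sc ^ i * (1 / 2 : ℝ) ^ j := by positivity
      have hC0 : 0 ≤ C := by linarith
      have g1 : 0 ≤ C * N ^ (-e) * T * (sa ^ i * sb ^ j) := by positivity
      have g2 : 0 ≤ C * N ^ (-e) * T * (sc ^ i * (1 / 2 : ℝ) ^ j) := by positivity
      have g3 : 0 ≤ (c0 + ε₁) * T * (a ^ i * (1 / 2 : ℝ) ^ j) := by positivity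
      by_cases hin : (2 : ℝ) ^ i ≤ N ^ (δ / 2) ∧ (2 : ℝ) ^ j ≤ N ^ (δ / 2)
      · have h1 := (abs_le.1 (hgood i j hin.1 hin.2)).2
        calc A (N / 2 ^ i) (Y / 2 ^ j) ≤ c0 * (a ^ i * (1 / 2 : ℝ) ^ j * T) + ε₁ * (a ^ i * (1 / 2 : ℝ) ^ j * T) := by
              linarith
          _ = (c0 + ε₁) * T * (a ^ i * (1 / 2 : ℝ) ^ j) := by ring
          _ ≤ _ := by linarith
      · by_cases hN' : N / 2 ^ i < 1
        · rw [hAN _ _ hN']
          linarith
        by_cases hY'' : Y / 2 ^ j < 1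
        · rw [hAY _ _ hY'']
          linarith
        rw [not_lt] at hN' hY''
        have h1 := FC3_out hδ hN1 hin
        rw [← ha, ← hsa, ← hsb] at h1
        have h2i : (2 : ℝ) ^ i ≤ N := by
          rw [le_div_iff₀ (by positivity), one_mul] at hN'
          exact hN'
        have h4 := hU' N (N / 2 ^ i) (Y / 2 ^ j) hN' (div_le_self hN0.le (one_le_pow₀ (by norm_num)))
          hY'' ((div_le_self hY0 (one_le_pow₀ (by norm_num))).trans hY')
        rw [huT i j, hwT j] at h4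
        have h5 : N ^ (-c) ≤ N ^ (-(c / 2)) * sc ^ i := by
          have h6 : N ^ (-c) = N ^ (-(c / 2)) * N ^ (-(c / 2)) := by
            rw [← Real.rpow_add hN0]
            congr 1
            ring
          rw [h6]
          refine mul_le_mul_of_nonneg_left ?_ (by positivity)
          rw [hsc, SC3_pow]
          exact Real.rpow_le_rpow_of_nonpos (by positivity) h2i (by linarith)
        have h7 : N ^ e * N ^ (-(δ / 8)) ≤ N ^ (-e) := by
          rw [← Real.rpow_add hN0]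
          exact Real.rpow_le_rpow_of_exponent_le hN1 (by linarith)
        have h8 : N ^ e * N ^ (-(c / 2)) ≤ N ^ (-e) := by
          rw [← Real.rpow_add hN0]
          exact Real.rpow_le_rpow_of_exponent_le hN1 (by linarith)
        calc A (N / 2 ^ i) (Y / 2 ^ j)
            ≤ C * N ^ e * (a ^ i * (1 / 2 : ℝ) ^ j * T + N ^ (-c) * ((1 / 2 : ℝ) ^ j * T)) := h4
          _ ≤ C * N ^ e * (N ^ (-(δ / 8)) * (sa ^ i * sb ^ j) * T +
                N ^ (-(c / 2)) * sc ^ i * ((1 / 2 : ℝ) ^ j * T)) := by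
              refine mul_le_mul_of_nonneg_left (add_le_add ?_ ?_) (by positivity)
              · exact mul_le_mul_of_nonneg_right h1 hT0
              · exact mul_le_mul_of_nonneg_right h5 (by positivity)
          _ = C * (N ^ e * N ^ (-(δ / 8))) * T * (sa ^ i * sb ^ j) +
                C * (N ^ e * N ^ (-(c / 2))) * T * (sc ^ i * (1 / 2 : ℝ) ^ j) := by ring
          _ ≤ C * N ^ (-e) * T * (sa ^ i * sb ^ j) +
                C * N ^ (-e) * T * (sc ^ i * (1 / 2 : ℝ) ^ j) := by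
              refine add_le_add ?_ ?_
              · exact mul_le_mul_of_nonneg_right (mul_le_mul_of_nonneg_right
                  (mul_le_mul_of_nonneg_left h7 hC0) hT0) hv0
              · exact mul_le_mul_of_nonneg_right (mul_le_mul_of_nonneg_right
                  (mul_le_mul_of_nonneg_left h8 hC0) hT0) hw0
          _ ≤ _ := by linarith
    calc ∑ i ∈ range I, ∑ j ∈ range J, A (N / 2 ^ i) (Y / 2 ^ j)
        ≤ ∑ i ∈ range I, ∑ j ∈ range J,
          ((c0 + ε₁) * T * (a ^ i * (1 / 2 : ℝ) ^ j) + (C * N ^ (-e) * T * (sa ^ i * sb ^ j) +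
          C * N ^ (-e) * T * (sc ^ i * (1 / 2 : ℝ) ^ j))) :=
          Finset.sum_le_sum fun i _ => Finset.sum_le_sum fun j _ => hall i j
      _ = (c0 + ε₁) * T * (∑ i ∈ range I, ∑ j ∈ range J, a ^ i * (1 / 2 : ℝ) ^ j) +
          (C * N ^ (-e) * T * (∑ i ∈ range I, ∑ j ∈ range J, sa ^ i * sb ^ j) +
          C * N ^ (-e) * T * ∑ i ∈ range I, ∑ j ∈ range J, sc ^ i * (1 / 2 : ℝ) ^ j) := by
          simp only [Finset.sum_add_distrib, Finset.mul_sum]
      _ ≤ (c0 + ε₁) * T * U₀ + (C * N ^ (-e) * T * V₀ + C * N ^ (-e) * T * V₁) := by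
          have hC0 : 0 ≤ C := by linarith
          exact add_le_add (mul_le_mul_of_nonneg_left (hsumU I J) (by positivity))
            (add_le_add (mul_le_mul_of_nonneg_left (hsumV I J) (by positivity))
              (mul_le_mul_of_nonneg_left (hsumW I J) (by positivity)))
      _ = (c0 * U₀ + ε₁ * U₀ + C * N ^ (-e) * (V₀ + V₁)) * T := by ring
      _ ≤ (36 / Real.pi ^ 3 + ε) * T := by
          refine mul_le_mul_of_nonneg_right ?_ hT0
          rw [hcU, hεU]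
          linarith
  · -- the lower bound
    have hsub : ∑ i ∈ range n₀, ∑ j ∈ range n₀, A (N / 2 ^ i) (Y / 2 ^ j) ≤
        ∑ i ∈ range n₀, ∑ j ∈ range J, A (N / 2 ^ i) (Y / 2 ^ j) :=
      Finset.sum_le_sum fun i _ => Finset.sum_le_sum_of_subset_of_nonneg
        (Finset.range_subset_range.2 hJ) fun _ _ _ => hA0 _ _
    refine le_trans ?_ hsub
    calc (36 / Real.pi ^ 3 - ε) * T ≤ (c0 * (U₀ - ε / (2 * c0)) - ε₁ * U₀) * T := by
          refine mul_le_mul_of_nonneg_right ?_ hT0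
          have h1 : c0 * (ε / (2 * c0)) = ε / 2 := by field_simp
          rw [mul_sub, hcU, h1, hεU]
          linarith
      _ ≤ (c0 * (∑ i ∈ range n₀, ∑ j ∈ range n₀, a ^ i * (1 / 2 : ℝ) ^ j) -
          ε₁ * ∑ i ∈ range n₀, ∑ j ∈ range n₀, a ^ i * (1 / 2 : ℝ) ^ j) * T := by
          refine mul_le_mul_of_nonneg_right ?_ hT0
          exact sub_le_sub (mul_le_mul_of_nonneg_left hn₀.le hc0.le)
            (mul_le_mul_of_nonneg_left (hsumU n₀ n₀) hε₁0.le)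
      _ = ∑ i ∈ range n₀, ∑ j ∈ range n₀, (c0 - ε₁) * (a ^ i * (1 / 2 : ℝ) ^ j * T) := by
          simp only [← Finset.mul_sum, ← Finset.sum_mul]
          ring
      _ ≤ _ := by
          refine Finset.sum_le_sum fun i hi => Finset.sum_le_sum fun j hj => ?_
          rw [Finset.mem_range] at hi hj
          have hi' : (2 : ℝ) ^ i ≤ 2 ^ n₀ := pow_le_pow_right₀ (by norm_num) hi.le
          have hj' : (2 : ℝ) ^ j ≤ 2 ^ n₀ := pow_le_pow_right₀ (by norm_num) hj.le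
          have h1 := (abs_le.1 (hgood i j (hi'.trans e2) (hj'.trans e2))).1
          linarith

end Pool.Agent.AP
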