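import Pool.Agent.helper82.AP.SpecF

set_option autoImplicit false

namespace Pool.Agent.AP

open Finset NumberField Pool.Agent.helper3.FT Pool.Agent.helper47.RA Pool.Agent.T5
open scoped nonZeroDivisors

theorem FSL_eq (M Y : ℝ) : AA 5 M Y = ∑ D ∈ DN M, (cA D Y : ℝ) := rfl

theorem FSL : FSL_stmt := by
  intro hU hL hS δ hδ ε hε
  set δ₁ : ℝ := min δ (1 / 100) with hδ₁
  set δ₂ : ℝ := min δ (1 / 10) with hδ₂
  have hδ₁0 : 0 < δ₁ := lt_min hδ (by norm_num)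
  have hδ₂0 : 0 < δ₂ := lt_min hδ (by norm_num)
  have a1 : δ₁ ≤ δ := min_le_left _ _
  have a2 : δ₁ ≤ 1 / 100 := min_le_right _ _
  have a3 : δ₂ ≤ δ := min_le_left _ _
  have a4 : δ₂ ≤ 1 / 10 := min_le_right _ _
  obtain ⟨N₁, H1⟩ := hS δ₁ hδ₁0 ε hε
  obtain ⟨N₂, H2⟩ := hU δ₂ hδ₂0 a4 ε hε
  obtain ⟨N₃, H3⟩ := hL δ₂ hδ₂0 a4 ε hε
  refine ⟨max (max N₁ N₂) (max N₃ 1), fun N Y hN hY1 hY2 => ?_⟩
  have b1 : N₁ ≤ N := ((le_max_left _ _).trans (le_max_left _ _)).trans hN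
  have b2 : N₂ ≤ N := ((le_max_right _ _).trans (le_max_left _ _)).trans hN
  have b3 : N₃ ≤ N := ((le_max_left _ _).trans (le_max_right _ _)).trans hN
  have b4 : 1 ≤ N := ((le_max_right _ _).trans (le_max_right _ _)).trans hN
  by_cases hY : Y ≤ N ^ (2 / 5 - δ₁)
  · refine H1 N Y b1 ?_ hY
    exact (Real.rpow_le_rpow_of_exponent_le b4 (by linarith)).trans hY1
  · rw [not_le] at hY
    have c1 : N ^ (0.39 : ℝ) ≤ Y :=
      (Real.rpow_le_rpow_of_exponent_le b4 (by norm_num; linarith)).trans hY.le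
    have c2 : Y ≤ N ^ (1 / 2 - δ₂) :=
      hY2.trans (Real.rpow_le_rpow_of_exponent_le b4 (by linarith))
    have e1 := H2 N Y b2 c1 c2
    have e2 := H3 N Y b3 c1 c2
    rw [FSL_eq, abs_le]
    constructor
    · linarith
    · linarith

end Pool.Agent.AP
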