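import Pool.Agent.helper82.AP.SpecF

set_option autoImplicit false

namespace Pool.Agent.AP

open Finset NumberField Pool.Agent.helper3.FT Pool.Agent.helper47.RA Pool.Agent.T5
open scoped nonZeroDivisors

theorem FUB_eq (M Y : ℝ) : AA 5 M Y = ∑ D ∈ DN M, (cA D Y : ℝ) := rfl

theorem FUB : FUB_stmt := by
  intro hU β hβ δ hδ
  refine ⟨1, one_pos, fun ε hε => ?_⟩
  obtain ⟨C, hC, h⟩ := hU (ε / 2) (by positivity)
  refine ⟨C, hC, fun N M Y hM hMN hY hYN => ?_⟩
  have hN1 : 1 ≤ N := hM.trans hMN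
  have hN0 : 0 < N := by linarith
  have hC0 : 0 ≤ C := by linarith
  have h1 := h M Y hM hY
  rw [← FUB_eq] at h1
  have hYN' : Y ≤ N := by
    calc Y ≤ N ^ (β - δ) := hYN
      _ ≤ N ^ (1 : ℝ) := Real.rpow_le_rpow_of_exponent_le hN1 (by linarith)
      _ = N := Real.rpow_one N
  have h2 : (M * Y) ^ (ε / 2) ≤ N ^ ε := by
    calc (M * Y) ^ (ε / 2) ≤ (N ^ (2 : ℝ)) ^ (ε / 2) := by
          refine Real.rpow_le_rpow (by positivity) ?_ (by positivity)
          rw [Real.rpow_two, sq]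
          exact mul_le_mul hMN hYN' (by linarith) hN0.le
      _ = N ^ ε := by
          rw [← Real.rpow_mul hN0.le]
          congr 1
          ring
  have hT : 0 ≤ Y * √M := by positivity
  have hT2 : 0 ≤ N ^ (-(1 : ℝ)) * (Y * √N) := by positivity
  calc AA 5 M Y ≤ C * (M * Y) ^ (ε / 2) * (Y * √M) := h1
    _ ≤ C * N ^ ε * (Y * √M) :=
        mul_le_mul_of_nonneg_right (mul_le_mul_of_nonneg_left h2 hC0) hT
    _ ≤ C * N ^ ε * (Y * √M + N ^ (-(1 : ℝ)) * (Y * √N)) :=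
        mul_le_mul_of_nonneg_left (by linarith) (by positivity)

end Pool.Agent.AP
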