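import Pool.Agent.helper3.AP.SpecG

set_option autoImplicit false

namespace Pool.Agent.AP

open Finset NumberField Pool.Agent.helper3.FT Pool.Agent.helper47.RA Pool.Agent.T5

theorem GFT_memDN {M : ℝ} {D : ℤ} (hD : IsFund D) (hneg : D < 0) (h1 : M / 2 < -(D : ℝ))
    (h2 : -(D : ℝ) ≤ M) : D ∈ DN M := by
  classical
  unfold DN
  rw [Finset.mem_filter, Finset.mem_Icc]
  refine ⟨⟨?_, by omega⟩, hD, h1⟩
  have h3 : -D ≤ ⌊M⌋ := Int.le_floor.2 (by push_cast; exact h2)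
  omega

theorem GFT (hGTB : GTB_stmt) : GFT_stmt := by
  intro p N Y f₀ I hN hf₀ hfN hNI t ht D₀ f hD₀ hdp hf hco
  have hTK := hGTB.1 p N Y t ht
  have hf1 : (1 : ℝ) ≤ f := hf₀.trans hf
  have hf1' : 1 ≤ f := by exact_mod_cast hf1
  have hDneg : dp p t < 0 := by
    have h1 := ht.N1
    have h2 : (0 : ℝ) < -(dp p t : ℝ) := lt_trans (by linarith) h1
    have h3 : (dp p t : ℝ) < 0 := by linarith
    exact_mod_cast h3
  have hfpos : (0 : ℤ) < (f : ℤ) ^ 2 := by positivity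
  have hD₀neg : D₀ < 0 := by
    rw [hdp] at hDneg
    by_contra h
    push Not at h
    have : 0 ≤ D₀ * (f : ℤ) ^ 2 := mul_nonneg h hfpos.le
    omega
  refine ⟨⟨hTK.sf, hTK.z1, ?_, ?_, ?_, ?_⟩, hD₀neg, hf1', ?_⟩
  · exact Nat.mul_pos hTK.y1 hf1'
  · exact Nat.Coprime.mul_left hTK.co hco
  · have h1 : (t.1 : ℤ) ∣ D₀ * (f : ℤ) ^ 2 := by
      rw [← hdp]
      exact hTK.rD
    refine IsCoprime.dvd_of_dvd_mul_right ?_ h1
    refine IsCoprime.pow_right ?_
    rw [Nat.isCoprime_iff_coprime]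
    exact (Nat.Coprime.coprime_mul_right_right hco).symm
  · have h1 := hTK.eq
    rw [hdp] at h1
    rw [← h1]
    push_cast
    ring
  · set N' : ℝ := N / f₀ ^ 2 with hN'
    have hf₀2 : 0 < f₀ ^ 2 := by positivity
    have hN'1 : 1 ≤ N' := by rw [hN', le_div_iff₀ hf₀2, one_mul]; exact hfN
    have hN'N : N' ≤ N := by
      rw [hN']
      exact div_le_self (by linarith) (one_le_pow₀ hf₀)
    have hD₀le : -(D₀ : ℝ) ≤ N' := by
      rw [hN', le_div_iff₀ hf₀2]
      have h1 : -(dp p t : ℝ) ≤ N := ht.N2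
      have h2 : (dp p t : ℝ) = (D₀ : ℝ) * (f : ℝ) ^ 2 := by
        rw [hdp]
        push_cast
        ring
      have h3 : (0 : ℝ) ≤ -(D₀ : ℝ) := by
        have : (D₀ : ℝ) < 0 := by exact_mod_cast hD₀neg
        linarith
      have h4 : f₀ ^ 2 ≤ (f : ℝ) ^ 2 := pow_le_pow_left₀ (by linarith) hf 2
      calc -(D₀ : ℝ) * f₀ ^ 2 ≤ -(D₀ : ℝ) * (f : ℝ) ^ 2 := mul_le_mul_of_nonneg_left h4 h3
        _ = -(dp p t : ℝ) := by rw [h2]; ring
        _ ≤ N := h1
    have hD1 : (1 : ℝ) ≤ -(D₀ : ℝ) := by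
      have : D₀ ≤ -1 := by omega
      have h5 : (D₀ : ℝ) ≤ -1 := by exact_mod_cast this
      linarith
    classical
    have hex : ∃ i : ℕ, N' / 2 ^ (i + 1) < -(D₀ : ℝ) := by
      refine ⟨I, ?_⟩
      refine lt_of_lt_of_le ?_ hD1
      rw [div_lt_one (by positivity)]
      have : (2 : ℝ) ^ I ≤ 2 ^ (I + 1) := pow_le_pow_right₀ (by norm_num) (by omega)
      linarith
    set i := Nat.find hex with hi
    have hi1 : N' / 2 ^ (i + 1) < -(D₀ : ℝ) := Nat.find_spec hex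
    have hi2 : -(D₀ : ℝ) ≤ N' / 2 ^ i := by
      rcases Nat.eq_zero_or_pos i with h0 | h0
      · rw [h0, pow_zero, div_one]
        exact hD₀le
      · have h6 := Nat.find_min hex (m := i - 1) (by omega)
        rw [not_lt, Nat.sub_add_cancel h0] at h6
        exact h6
    have hiI : i < I := by
      by_contra h
      push Not at h
      have h7 : (2 : ℝ) ^ I ≤ 2 ^ i := pow_le_pow_right₀ (by norm_num) h
      have h8 : N' / 2 ^ i < 1 := by
        rw [div_lt_one (by positivity)]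
        linarith
      linarith
    refine ⟨i, Finset.mem_range.2 hiI, GFT_memDN hD₀ hD₀neg ?_ hi2⟩
    rw [div_div, ← pow_succ]
    exact hi1

end Pool.Agent.AP
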