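import Pool.Agent.helper95.AP.SpecL

set_option autoImplicit false

namespace Pool.Agent.APL

open Finset NumberField Pool.Agent.helper3.FT Pool.Agent.helper47.RA Pool.Agent.T5 Pool.Agent.AP

theorem LMD_sq (K : ℕ) (hK : 1 ≤ K) (S : Finset ℕ) (hS : K.primeFactors ⊆ S) :
    K ^ 2 = ∏ q ∈ S, q ^ (2 * K.factorization q) := by
  have h1 : K = ∏ q ∈ S, q ^ K.factorization q := by
    conv_lhs => rw [← Nat.factorization_prod_pow_eq_self (by omega : K ≠ 0)]
    rw [Finsupp.prod, Nat.support_factorization]
    refine Finset.prod_subset hS fun q _ hq => ?_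
    have h2 : K.factorization q = 0 := by
      rw [← Finsupp.notMem_support_iff, Nat.support_factorization]
      exact hq
    rw [h2, pow_zero]
  conv_lhs => rw [h1]
  rw [← Finset.prod_pow]
  refine Finset.prod_congr rfl fun q _ => ?_
  rw [← pow_mul, mul_comm]

theorem LMD : LMD_stmt := by
  refine ⟨?_, fun K hK => LMD_sq K hK _ subset_rfl⟩
  intro w y hw hy
  have h2 : 2 ∈ pr w := by
    rw [pr, Finset.mem_filter, Finset.mem_range]
    exact ⟨by omega, Nat.prime_two⟩
  have hLL : LL w = ∏ q ∈ pr w, q ^ aq q := by
    rw [LL, ← Finset.mul_prod_erase _ _ h2]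
    congr 1
    refine Finset.prod_congr rfl fun q hq => ?_
    rw [Finset.mem_erase] at hq
    rw [aq, if_neg hq.1]
  refine ⟨hLL, ?_, ?_⟩
  · have h3 : LL w = ∏ q ∈ SS w y, q ^ (if q ≤ w then aq q else 0) := by
      rw [hLL]
      have h4 : ∀ q ∈ pr w, q ^ aq q = q ^ (if q ≤ w then aq q else 0) := by
        intro q hq
        rw [pr, Finset.mem_filter, Finset.mem_range] at hq
        rw [if_pos (by omega)]
      rw [Finset.prod_congr rfl h4]
      refine Finset.prod_subset Finset.subset_union_left fun q hq hqn => ?_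
      have h5 : ¬ q ≤ w := by
        intro h6
        apply hqn
        rw [pr, Finset.mem_filter, Finset.mem_range]
        refine ⟨by omega, ?_⟩
        rw [SS, Finset.mem_union] at hq
        rcases hq with h7 | h7
        · exact absurd h7 hqn
        · exact Nat.prime_of_mem_primeFactors h7
      rw [if_neg h5, pow_zero]
    rw [h3, LMD_sq y hy (SS w y) Finset.subset_union_right, ← Finset.prod_mul_distrib]
    refine Finset.prod_congr rfl fun q _ => ?_
    rw [← pow_add]
    rfl
  · intro q hq
    rw [SS, Finset.mem_union] at hq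
    rcases hq with h7 | h7
    · rw [pr, Finset.mem_filter] at h7
      exact h7.2
    · exact Nat.prime_of_mem_primeFactors h7

end Pool.Agent.APL
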