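import Pool.Agent.helper95.AP.SpecL

set_option autoImplicit false

namespace Pool.Agent.APL

open Finset NumberField Pool.Agent.helper3.FT Pool.Agent.helper47.RA Pool.Agent.T5 Pool.Agent.AP

/-- four times the density -/
def LMT_h (r a b : ℕ) : ℕ :=
  if 2 ∣ b then
    (if 2 ∣ r * a then 0
     else if b % 8 = 0 then (if r * a % 8 = 1 then 12 else 0)
     else if b % 4 = 0 then (if r * a % 8 = 1 then 4 else if r * a % 8 = 5 then 8 else 0)
     else (if r * a % 4 = 3 then 4 else 2))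
  else if 2 ∣ r then (if 2 ∣ a then 0 else 2)
  else (if 2 ∣ a then 2 else 3)

theorem LMT_g2 (r a b : ℕ) : gq 2 r a b = (LMT_h r a b : ℝ) / 4 := by
  rw [gq, if_pos rfl, g2, LMT_h]
  split_ifs <;> norm_num

theorem LMT_mod (r a b : ℕ) : LMT_h r a b = LMT_h (r % 8) a b := by
  have h1 : r * a % 8 = r % 8 * a % 8 := (Nat.mod_mul_mod r a 8).symm
  have h2 : 2 ∣ r * a ↔ 2 ∣ r % 8 * a := by omega
  have h3 : r * a % 4 = r % 8 * a % 4 := by omega
  have h4 : 2 ∣ r ↔ 2 ∣ r % 8 := by omega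
  unfold LMT_h
  simp only [h1, h2, h3, h4]

theorem LMT_fin : ∀ r ∈ range 8, ∑ a ∈ range 16, ∑ b ∈ range 16, LMT_h r a b =
    if 2 ∣ r then 128 else 512 := by
  decide +kernel

theorem LMT : LMT_stmt := by
  refine ⟨?_, ?_⟩
  · intro r
    have h1 : ∑ a ∈ range 16, ∑ b ∈ range 16, gq 2 r a b =
        ((∑ a ∈ range 16, ∑ b ∈ range 16, LMT_h (r % 8) a b : ℕ) : ℝ) / 4 := by
      rw [Nat.cast_sum, Finset.sum_div]
      refine Finset.sum_congr rfl fun a _ => ?_
      rw [Nat.cast_sum, Finset.sum_div]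
      refine Finset.sum_congr rfl fun b _ => ?_
      rw [LMT_g2, LMT_mod]
    rw [h1, LMT_fin (r % 8) (Finset.mem_range.2 (Nat.mod_lt _ (by norm_num)))]
    have h4 : 2 ∣ r % 8 ↔ 2 ∣ r := by omega
    by_cases h : 2 ∣ r
    · rw [if_pos (h4.2 h), if_pos h, m1]
      norm_num
    · rw [if_neg (fun h' => h (h4.1 h')), if_neg h, m0]
      norm_num
  · intro q hq
    have hq0 : (q : ℝ) ≠ 0 := by exact_mod_cast hq.ne_zero
    rw [m0, m1]
    field_simp
    ring

end Pool.Agent.APL
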