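import Pool.Agent.helper95.AP.SpecL

set_option autoImplicit false

namespace Pool.Agent.APL

open Finset NumberField Pool.Agent.helper3.FT Pool.Agent.helper47.RA Pool.Agent.T5 Pool.Agent.AP

theorem LPE_Lq (r q : ℕ) (d s : ℤ) : Lq r q (d + (q : ℤ) ^ aq q * s) ↔ Lq r q d := by
  by_cases hq : q = 2
  · subst hq
    have ha : aq 2 = 4 := rfl
    have h16 : ((2 : ℕ) : ℤ) ^ aq 2 = 16 := by rw [ha]; norm_num
    rw [h16, Lq, Lq, if_pos rfl, if_pos rfl]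
    have h1 : (d + 16 * s) % 4 = d % 4 := by omega
    have h2 : (d + 16 * s) % 16 = d % 16 := by omega
    have h3 : (2 : ℤ) ∣ d + 16 * s ↔ (2 : ℤ) ∣ d := by omega
    rw [h1, h2, h3]
  · have ha : aq q = 2 := if_neg hq
    rw [ha, Lq, Lq, if_neg hq, if_neg hq]
    have h1 : (q : ℤ) ^ 2 ∣ d + (q : ℤ) ^ 2 * s ↔ (q : ℤ) ^ 2 ∣ d :=
      dvd_add_left (Dvd.intro s rfl : (q : ℤ) ^ 2 ∣ (q : ℤ) ^ 2 * s)
    have h2 : (q : ℤ) ∣ d + (q : ℤ) ^ 2 * s ↔ (q : ℤ) ∣ d := by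
      refine dvd_add_left ?_
      exact (dvd_pow_self _ (by norm_num)).trans (Dvd.intro s rfl)
    rw [h1, h2]

theorem LPE : LPE_stmt := by
  intro w r n y q x hq
  set v := y.factorization q with hv
  set a : ℕ := if q ≤ w then aq q else 0 with ha
  have hex : ex w y q = 2 * v + a := rfl
  have hq0 : (q : ℤ) ^ (2 * v) ≠ 0 := pow_ne_zero _ (by exact_mod_cast hq.ne_zero)
  obtain ⟨s, hs⟩ : ∃ s : ℤ, (x : ℤ) ^ 2 - 4 * (n : ℤ) =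
      (((x % q ^ ex w y q : ℕ) : ℤ) ^ 2 - 4 * (n : ℤ)) + (q : ℤ) ^ (2 * v) * ((q : ℤ) ^ a * s) := by
    refine ⟨((x / q ^ ex w y q : ℕ) : ℤ) *
      (2 * ((x % q ^ ex w y q : ℕ) : ℤ) + (q : ℤ) ^ (2 * v + a) * ((x / q ^ ex w y q : ℕ) : ℤ)), ?_⟩
    have h1 : (x : ℤ) = ((x % q ^ ex w y q : ℕ) : ℤ) +
        (q : ℤ) ^ (2 * v + a) * ((x / q ^ ex w y q : ℕ) : ℤ) := by
      have h2 := Nat.mod_add_div x (q ^ ex w y q)
      rw [hex] at h2 ⊢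
      exact_mod_cast h2.symm
    generalize ((x % q ^ ex w y q : ℕ) : ℤ) = x' at h1 ⊢
    generalize ((x / q ^ ex w y q : ℕ) : ℤ) = t at h1 ⊢
    rw [h1, pow_add]
    ring
  unfold Cq
  rw [hs]
  have h3 : (q : ℤ) ^ (2 * v) ∣ ((x % q ^ ex w y q : ℕ) : ℤ) ^ 2 - 4 * (n : ℤ) +
      (q : ℤ) ^ (2 * v) * ((q : ℤ) ^ a * s) ↔
      (q : ℤ) ^ (2 * v) ∣ ((x % q ^ ex w y q : ℕ) : ℤ) ^ 2 - 4 * (n : ℤ) :=
    dvd_add_left (Dvd.intro _ rfl)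
  rw [h3, Int.add_mul_ediv_left _ _ hq0]
  refine and_congr_right fun _ => ?_
  by_cases hqw : q ≤ w
  · have ha' : a = aq q := if_pos hqw
    rw [ha', LPE_Lq]
  · exact ⟨fun _ h => absurd h hqw, fun _ h => absurd h hqw⟩

end Pool.Agent.APL
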