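import Pool.Agent.helper95.AP.SpecL

set_option autoImplicit false

namespace Pool.Agent.APL

open Finset NumberField Pool.Agent.helper3.FT Pool.Agent.helper47.RA Pool.Agent.T5 Pool.Agent.AP

/-- the decidable form of the condition -/
def LTA_P (m : ℕ) (e : Bool) (x : ℕ) : Prop :=
  (((x : ℤ) ^ 2 - 4 * (m : ℤ)) % 4 = 0 ∨ ((x : ℤ) ^ 2 - 4 * (m : ℤ)) % 4 = 1) ∧
    ((x : ℤ) ^ 2 - 4 * (m : ℤ)) % 16 ≠ 0 ∧ ((x : ℤ) ^ 2 - 4 * (m : ℤ)) % 16 ≠ 4 ∧
    (e = true → ((x : ℤ) ^ 2 - 4 * (m : ℤ)) % 2 = 0)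

instance LTA_dec (m : ℕ) (e : Bool) : DecidablePred (LTA_P m e) := fun x => by
  unfold LTA_P
  infer_instance

theorem LTA_iff (w r n x : ℕ) (hw : 2 ≤ w) : Cq w r n 0 2 x ↔ LTA_P (n % 4) (decide (2 ∣ r)) x := by
  have h1 : ((2 : ℕ) : ℤ) ^ (2 * 0) = 1 := by norm_num
  unfold Cq LTA_P
  rw [h1, Int.ediv_one, Lq, if_pos rfl]
  have h2 : ((n % 4 : ℕ) : ℤ) = (n : ℤ) % 4 := by push_cast; rfl
  rw [h2]
  generalize (x : ℤ) ^ 2 = X
  generalize (n : ℤ) = N
  have h3 : (X - 4 * (N % 4)) % 4 = (X - 4 * N) % 4 := by omega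
  have h4 : (X - 4 * (N % 4)) % 16 = (X - 4 * N) % 16 := by omega
  have h5 : (X - 4 * (N % 4)) % 2 = 0 ↔ (2 : ℤ) ∣ (X - 4 * N) := by omega
  rw [h3, h4, h5, decide_eq_true_iff]
  constructor
  · rintro ⟨-, h⟩
    exact h hw
  · intro h
    exact ⟨one_dvd _, fun _ => h⟩

theorem LTA_card : ((range 16).filter (LTA_P 0 true)).card = 0 ∧
    ((range 16).filter (LTA_P 2 true)).card = 8 ∧
    ((range 16).filter (LTA_P 0 false)).card = 8 ∧
    ((range 16).filter (LTA_P 1 false)).card = 12 ∧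
    ((range 16).filter (LTA_P 3 false)).card = 12 := by
  decide +kernel

open Classical in
theorem LTA_pow (z p : ℕ) (hp : 3 ≤ p) (hz : 2 ∣ z) : 4 ∣ z ^ p := by
  have h1 : (2 : ℕ) ^ 2 ∣ z ^ p := (pow_dvd_pow 2 (by omega : 2 ≤ p)).trans (pow_dvd_pow_of_dvd hz p)
  exact h1

open Classical in
theorem LTA : LTA_stmt := by
  intro w r z p hw hp hr
  obtain ⟨c1, c2, c3, c4, c5⟩ := LTA_card
  have hcongr : ((range 16).filter (Cq w r (r * z ^ p) 0 2)).card =
      ((range 16).filter (LTA_P (r * z ^ p % 4) (decide (2 ∣ r)))).card := by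
    congr 1
    exact Finset.filter_congr fun x _ => LTA_iff w r (r * z ^ p) x hw
  rw [hcongr]
  have hodd : ¬ 2 ∣ z → z ^ p % 2 = 1 := by
    intro h
    have h1 : ¬ 2 ∣ z ^ p := fun h2 => h (Nat.prime_two.dvd_of_dvd_pow h2)
    omega
  by_cases h2r : 2 ∣ r
  · rw [if_pos h2r, decide_eq_true h2r]
    by_cases h2z : 2 ∣ z
    · rw [if_pos h2z]
      obtain ⟨k, hk⟩ := LTA_pow z p hp h2z
      have h3 : r * z ^ p % 4 = 0 := by
        rw [hk, ← mul_assoc, mul_comm r 4, mul_assoc]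
        exact Nat.mul_mod_right 4 _
      rw [h3]
      exact c1
    · rw [if_neg h2z]
      have h3 : r * z ^ p % 4 = 2 := by
        have h4 := hodd h2z
        obtain ⟨a, ha⟩ : ∃ a, r = 4 * a + 2 := ⟨r / 4, by omega⟩
        obtain ⟨b, hb⟩ : ∃ b, z ^ p = 2 * b + 1 := ⟨z ^ p / 2, by omega⟩
        rw [ha, hb]
        have : (4 * a + 2) * (2 * b + 1) = 4 * (2 * a * b + a + b) + 2 := by ring
        rw [this]
        omega
      rw [h3]
      exact c2
  · rw [if_neg h2r, decide_eq_false h2r]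
    by_cases h2z : 2 ∣ z
    · rw [if_pos h2z]
      obtain ⟨k, hk⟩ := LTA_pow z p hp h2z
      have h3 : r * z ^ p % 4 = 0 := by
        rw [hk, ← mul_assoc, mul_comm r 4, mul_assoc]
        exact Nat.mul_mod_right 4 _
      rw [h3]
      exact c3
    · rw [if_neg h2z]
      have h3 : r * z ^ p % 4 = 1 ∨ r * z ^ p % 4 = 3 := by
        have h4 : ¬ 2 ∣ r * z ^ p := by
          intro h5
          rcases (Nat.prime_two.dvd_mul).1 h5 with h6 | h6
          · exact h2r h6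
          · exact h2z (Nat.prime_two.dvd_of_dvd_pow h6)
        omega
      rcases h3 with h3 | h3
      · rw [h3]
        exact c4
      · rw [h3]
        exact c5

end Pool.Agent.APL
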