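import Pool.Agent.helper95.AP.SpecL

set_option autoImplicit false

namespace Pool.Agent.APL

open Finset NumberField Pool.Agent.helper3.FT Pool.Agent.helper47.RA Pool.Agent.T5 Pool.Agent.AP

/-- the decidable form of the condition -/
def LTB_P (m : ℕ) (x : ℕ) : Prop :=
  ((x : ℤ) ^ 2 - 4 * (m : ℤ)) % 4 = 0 ∧
  ((((x : ℤ) ^ 2 - 4 * (m : ℤ)) / 4) % 4 = 0 ∨ (((x : ℤ) ^ 2 - 4 * (m : ℤ)) / 4) % 4 = 1) ∧
    (((x : ℤ) ^ 2 - 4 * (m : ℤ)) / 4) % 16 ≠ 0 ∧ (((x : ℤ) ^ 2 - 4 * (m : ℤ)) / 4) % 16 ≠ 4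

instance LTB_dec (m : ℕ) : DecidablePred (LTB_P m) := fun x => by
  unfold LTB_P
  infer_instance

theorem LTB_iff (w r n x : ℕ) (hw : 2 ≤ w) (hr : ¬ 2 ∣ r) : Cq w r n 1 2 x ↔ LTB_P (n % 16) x := by
  have h1 : ((2 : ℕ) : ℤ) ^ (2 * 1) = 4 := by norm_num
  unfold Cq LTB_P
  rw [h1, Lq, if_pos rfl]
  have h2 : ((n % 16 : ℕ) : ℤ) = (n : ℤ) % 16 := by push_cast; rfl
  rw [h2]
  generalize (x : ℤ) ^ 2 = X
  generalize (n : ℤ) = N
  have h3 : ((X - 4 * (N % 16)) / 4) % 16 = ((X - 4 * N) / 4) % 16 := by omega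
  have h4 : ((X - 4 * (N % 16)) / 4) % 4 = ((X - 4 * N) / 4) % 4 := by omega
  have h5 : (X - 4 * (N % 16)) % 4 = 0 ↔ (4 : ℤ) ∣ (X - 4 * N) := by omega
  rw [h3, h4, h5]
  constructor
  · rintro ⟨ha, h⟩
    obtain ⟨b1, b2, b3, -⟩ := h hw
    exact ⟨ha, b1, b2, b3⟩
  · rintro ⟨ha, b1, b2, b3⟩
    exact ⟨ha, fun _ => ⟨b1, b2, b3, fun h => absurd h hr⟩⟩

theorem LTB_card : ∀ m ∈ range 16, m % 2 = 1 →
    ((range 64).filter (LTB_P m)).card = if m % 4 = 3 then 16 else 8 := by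
  decide +kernel

open Classical in
theorem LTB : LTB_stmt := by
  intro w r n hw hn hr
  have hcongr : ((range (2 ^ 6)).filter (Cq w r n 1 2)).card =
      ((range 64).filter (LTB_P (n % 16))).card := by
    have h64 : (2 : ℕ) ^ 6 = 64 := by norm_num
    rw [h64]
    congr 1
    exact Finset.filter_congr fun x _ => LTB_iff w r n x hw hr
  rw [hcongr, LTB_card (n % 16) (Finset.mem_range.2 (Nat.mod_lt _ (by norm_num))) (by omega)]
  have h3 : n % 16 % 4 = n % 4 := by omega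
  rw [h3]

end Pool.Agent.APL
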